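import Mathlib

set_option autoImplicit false

namespace Pool.Agent.Results.MP_771c73_an.Counter

open TopologicalSpace

abbrev V (k : ℕ) := Fin k → Fin 4

abbrev Idx := Σ k : ℕ, V k

def K (a b : Fin 4) : ℤ := if a = b then 1 else -1

def H {k : ℕ} (a b : V k) : ℤ := ∏ i, K (a i) (b i)

lemma K_sq (a c : Fin 4) : ∑ b, K a b * K b c = if a = c then 4 else 0 := by
  revert a c; decide

lemma H_sq {k : ℕ} (a c : V k) : ∑ b, H a b * H b c = if a = c then 4 ^ k else 0 := by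
  have : ∑ b : V k, H a b * H b c = ∏ i, ∑ t, K (a i) t * K t (c i) := by
    rw [Finset.prod_univ_sum, Fintype.piFinset_univ]
    refine Finset.sum_congr rfl fun b _ => ?_
    simp [H, Finset.prod_mul_distrib]
  rw [this]
  simp only [K_sq]
  split_ifs with h
  · simp [h]
  · obtain ⟨i, hi⟩ := Function.ne_iff.mp h
    exact Finset.prod_eq_zero (Finset.mem_univ i) (by simp [hi])

lemma H_symm {k : ℕ} (a b : V k) : H a b = H b a := by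
  unfold H K; simp [eq_comm]

lemma H_diag {k : ℕ} (a : V k) : H a a = 1 := by simp [H, K]

lemma H_abs {k : ℕ} (a b : V k) : |H a b| = 1 := by
  unfold H
  rw [Finset.abs_prod]
  refine Finset.prod_eq_one fun i _ => ?_
  unfold K; split_ifs <;> simp

variable (𝕜 : Type) [RCLike 𝕜]

abbrev E := lp (fun _ : Idx => 𝕜) 1

noncomputable def e (i : Idx) : E 𝕜 := lp.single 1 i 1

instance : SeparableSpace (E 𝕜) := by
  rw [← isSeparable_univ_iff]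
  have h1 : IsSeparable (Submodule.span 𝕜 (Set.range (e 𝕜)) : Set (E 𝕜)) :=
    (Set.countable_range _).isSeparable.span
  refine h1.closure.mono fun x _ => ?_
  refine mem_closure_of_tendsto (lp.hasSum_single (by simp) x) (Filter.Eventually.of_forall ?_)
  intro s
  refine Submodule.sum_mem _ fun i _ => ?_
  have : lp.single 1 i (x i) = x i • e 𝕜 i := by
    rw [e, ← lp.single_smul]; simp
  rw [this]
  exact Submodule.smul_mem _ _ (Submodule.subset_span ⟨i, rfl⟩)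

def G : Submodule 𝕜 (E 𝕜) where
  carrier := {x | ∀ k (a : V k), ∑ b, (H a b : 𝕜) * x ⟨k, b⟩ = 2 ^ k * x ⟨k, a⟩}
  add_mem' := by
    intro x y hx hy k a
    simp [mul_add, Finset.sum_add_distrib, hx k a, hy k a]
  zero_mem' := by intro k a; simp
  smul_mem' := by
    intro c x hx k a
    have := hx k a
    simp only [lp.coeFn_smul, Pi.smul_apply, smul_eq_mul]
    rw [mul_left_comm, ← this, Finset.mul_sum]
    exact Finset.sum_congr rfl fun b _ => by ring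

lemma G_closed : IsClosed (G 𝕜 : Set (E 𝕜)) := by
  have hc : ∀ i, Continuous fun x : E 𝕜 => x i := fun i =>
    (lp.lipschitzWith_one_eval 1 i).continuous
  show IsClosed {x : E 𝕜 | ∀ k (a : V k), ∑ b, (H a b : 𝕜) * x ⟨k, b⟩ = 2 ^ k * x ⟨k, a⟩}
  simp only [Set.ofPred_forall]
  refine isClosed_iInter fun k => isClosed_iInter fun a => isClosed_eq ?_ ?_
  · exact continuous_finsetSum _ fun b _ => continuous_const.mul (hc _)
  · exact continuous_const.mul (hc _)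

lemma norming (F : Type) [NormedAddCommGroup F] [NormedSpace 𝕜 F] [SeparableSpace F] :
    ∃ φ : ℕ → F →L[𝕜] 𝕜, (∀ n, ‖φ n‖ ≤ 1) ∧
      ∀ (g : F) (B : ℝ), (∀ n, ‖φ n g‖ ≤ B) → ‖g‖ ≤ B := by
  have : Nonempty F := ⟨0⟩
  choose φ h1 h2 using fun n => exists_dual_vector'' 𝕜 (denseSeq F n)
  refine ⟨φ, h1, fun g B hB => le_of_forall_pos_le_add fun ε hε => ?_⟩
  obtain ⟨n, hn⟩ := (denseRange_denseSeq F).exists_dist_lt g (half_pos hε)
  rw [dist_eq_norm] at hn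
  have a1 : ‖φ n (denseSeq F n)‖ = ‖denseSeq F n‖ := by rw [h2]; simp
  have a2 : ‖φ n (g - denseSeq F n)‖ ≤ ε / 2 := by
    refine ((φ n).le_opNorm _).trans ?_
    nlinarith [h1 n, norm_nonneg (g - denseSeq F n), norm_nonneg (φ n)]
  have a3 : ‖φ n (denseSeq F n)‖ ≤ ‖φ n g‖ + ‖φ n (g - denseSeq F n)‖ := by
    have : φ n (denseSeq F n) = φ n g - φ n (g - denseSeq F n) := by simp
    rw [this]; exact norm_sub_le _ _
  have a4 := norm_sub_norm_le g (denseSeq F n)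
  linarith [hB n]

lemma e_apply (k : ℕ) (a b : V k) : e 𝕜 ⟨k, a⟩ ⟨k, b⟩ = if b = a then 1 else 0 := by
  simp [e, lp.single_apply, Pi.single_apply]

lemma e_apply_ne {k l : ℕ} (h : l ≠ k) (a : V k) (b : V l) : e 𝕜 ⟨k, a⟩ ⟨l, b⟩ = 0 := by
  apply lp.single_apply_ne
  intro h'
  exact h (congrArg Sigma.fst h')

lemma block_le (x : E 𝕜) (k : ℕ) : ∑ b : V k, ‖x ⟨k, b⟩‖ ≤ ‖x‖ := by
  have := lp.sum_rpow_le_norm_rpow (p := 1) (by simp) x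
    (Finset.univ.map ⟨fun b : V k => (⟨k, b⟩ : Idx), sigma_mk_injective⟩)
  simpa using this

noncomputable def R {k : ℕ} (a b : V k) : 𝕜 := (H a b : 𝕜) + if a = b then 2 ^ k else 0

lemma R_norm {k : ℕ} (a b : V k) : ‖R 𝕜 a b‖ ≤ 1 + 2 ^ k := by
  refine (norm_add_le _ _).trans (add_le_add ?_ ?_)
  · have : ‖(H a b : 𝕜)‖ = ((|H a b| : ℤ) : ℝ) := by
      rw [← RCLike.ofReal_intCast, RCLike.norm_ofReal, Int.cast_abs]
    rw [this, H_abs]; simp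
  · split_ifs <;> simp

lemma r_apply {k : ℕ} (j c : V k) : (∑ i, R 𝕜 i j • e 𝕜 ⟨k, i⟩ : E 𝕜) ⟨k, c⟩ = R 𝕜 c j := by
  rw [lp.coeFn_sum]
  simp [e_apply]

lemma r_mem {k : ℕ} (j : V k) : ∑ i, R 𝕜 i j • e 𝕜 ⟨k, i⟩ ∈ G 𝕜 := by
  intro l a
  by_cases h : l = k
  · subst h
    simp only [r_apply]
    simp only [R, mul_add, Finset.sum_add_distrib]
    have := congrArg (Int.cast : ℤ → 𝕜) (H_sq a j)
    push_cast at this
    rw [this]
    have e4 : (4 : 𝕜) ^ l = 2 ^ l * 2 ^ l := by rw [← mul_pow]; norm_num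
    split_ifs <;> simp [e4] <;> ring
  · rw [lp.coeFn_sum]
    simp [e_apply_ne 𝕜 h]

theorem result (𝕜 : Type) [RCLike 𝕜] :
    ∃ (E : Type) (_ : NormedAddCommGroup E) (_ : NormedSpace 𝕜 E) (_ : CompleteSpace E)
      (_ : SeparableSpace E) (G : Submodule 𝕜 E) (φ : ℕ → G →L[𝕜] 𝕜),
      IsClosed (G : Set E) ∧ (∃ M : ℝ, ∀ n, ‖φ n‖ ≤ M) ∧
      ∀ f : ℕ → E →L[𝕜] 𝕜, (∀ n (g : G), f n g = φ n g) → (∃ M : ℝ, ∀ n, ‖f n‖ ≤ M) →
        ¬ Dense {x : E | ∃ g ∈ G, ∃ y : E, (∀ n, f n y = 0) ∧ x = g + y} := by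
  obtain ⟨φ, h1, h2⟩ := norming 𝕜 (G 𝕜)
  refine ⟨E 𝕜, inferInstance, inferInstance, inferInstance, inferInstance, G 𝕜, φ, G_closed 𝕜,
    ⟨1, h1⟩, ?_⟩
  rintro f hf ⟨C, hC⟩ hD
  have C0 : 0 ≤ C := (norm_nonneg _).trans (hC 0)
  have key : ∀ g ∈ G 𝕜, ∀ y : E 𝕜, (∀ n, f n y = 0) → ‖g‖ ≤ C * ‖g + y‖ := by
    intro g hg y hy
    refine h2 ⟨g, hg⟩ _ fun n => ?_
    rw [← hf n ⟨g, hg⟩]
    have : f n g = f n (g + y) := by simp [hy n]
    rw [this]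
    exact ((f n).le_opNorm _).trans (mul_le_mul_of_nonneg_right (hC n) (norm_nonneg _))
  obtain ⟨k, hk⟩ := pow_unbounded_of_one_lt (8 * C) (by norm_num : (1 : ℝ) < 2)
  set N : ℝ := (Fintype.card (V k) : ℝ) with hN
  have N0 : 0 < N := by rw [hN]; exact_mod_cast Fintype.card_pos
  set ε : ℝ := 1 / (2 * C * N + 1) with hε
  have ε0 : 0 < ε := by positivity
  have ε1 : ε ≤ 1 := by rw [hε, div_le_one (by positivity)]; nlinarith [mul_nonneg C0 N0.le]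
  have ε2 : C * N * ε ≤ 1 / 2 := by
    rw [hε, mul_one_div, div_le_iff₀ (by positivity)]; linarith
  have hap : ∀ i : V k, ∃ g ∈ G 𝕜, ∃ y : E 𝕜, (∀ n, f n y = 0) ∧
      ‖e 𝕜 ⟨k, i⟩ - (g + y)‖ < ε := by
    intro i
    obtain ⟨x, ⟨g, hg, y, hy, rfl⟩, hx⟩ := Metric.mem_closure_iff.mp (hD (e 𝕜 ⟨k, i⟩)) ε ε0
    exact ⟨g, hg, y, hy, by rwa [← dist_eq_norm]⟩
  choose g hg y hy hd using hap
  have gn : ∀ i, ‖g i‖ ≤ 2 * C := by
    intro i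
    have a1 := key _ (hg i) _ (hy i)
    have a2 : ‖e 𝕜 ⟨k, i⟩‖ = 1 := by rw [e, lp.norm_single (by simp)]; simp
    have a3 := norm_sub_norm_le (g i + y i) (e 𝕜 ⟨k, i⟩)
    rw [norm_sub_rev] at a3
    nlinarith [hd i]
  have wn : ∀ j : V k, ‖R 𝕜 j j - ∑ i, R 𝕜 i j * g i ⟨k, j⟩‖ ≤ (1 + 2 ^ k) / 2 := by
    intro j
    have a1 := key (∑ i, R 𝕜 i j • e 𝕜 ⟨k, i⟩ - ∑ i, R 𝕜 i j • g i)
      (Submodule.sub_mem _ (r_mem 𝕜 j) (Submodule.sum_mem _ fun i _ =>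
        Submodule.smul_mem _ _ (hg i))) (-∑ i, R 𝕜 i j • y i) (by intro n; simp [hy])
    have a2 : ∑ i, R 𝕜 i j • e 𝕜 ⟨k, i⟩ - ∑ i, R 𝕜 i j • g i + -∑ i, R 𝕜 i j • y i
        = ∑ i, R 𝕜 i j • (e 𝕜 ⟨k, i⟩ - (g i + y i)) := by
      simp only [smul_sub, smul_add, Finset.sum_sub_distrib, Finset.sum_add_distrib]; abel
    have a3 : ‖∑ i, R 𝕜 i j • (e 𝕜 ⟨k, i⟩ - (g i + y i))‖ ≤ N * ((1 + 2 ^ k) * ε) := by
      refine (norm_sum_le _ _).trans ?_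
      refine (Finset.sum_le_card_nsmul _ _ ((1 + 2 ^ k) * ε) fun i _ => ?_).trans ?_
      · rw [norm_smul]
        exact mul_le_mul (R_norm 𝕜 _ _) (hd i).le (norm_nonneg _) (by positivity)
      · simp [hN]
    rw [a2] at a1
    have a4 := lp.norm_apply_le_norm (by simp)
      (∑ i, R 𝕜 i j • e 𝕜 ⟨k, i⟩ - ∑ i, R 𝕜 i j • g i : E 𝕜) ⟨k, j⟩
    have a5 : (∑ i, R 𝕜 i j • e 𝕜 ⟨k, i⟩ - ∑ i, R 𝕜 i j • g i : E 𝕜) ⟨k, j⟩
        = R 𝕜 j j - ∑ i, R 𝕜 i j * g i ⟨k, j⟩ := by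
      rw [lp.coeFn_sub, Pi.sub_apply, r_apply, lp.coeFn_sum]
      simp
    rw [a5] at a4
    have a6 : C * ‖∑ i, R 𝕜 i j • (e 𝕜 ⟨k, i⟩ - (g i + y i))‖ ≤ C * (N * ((1 + 2 ^ k) * ε)) :=
      mul_le_mul_of_nonneg_left a3 C0
    have a7 : C * (N * ((1 + 2 ^ k) * ε)) = (C * N * ε) * (1 + 2 ^ k) := by ring
    have a8 : (C * N * ε) * (1 + 2 ^ k) ≤ 1 / 2 * (1 + 2 ^ k) :=
      mul_le_mul_of_nonneg_right ε2 (by positivity)
    linarith
  have sn : ∀ i : V k, ‖∑ j, R 𝕜 i j * g i ⟨k, j⟩‖ ≤ 4 * C := by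
    intro i
    have a1 : ∑ j, R 𝕜 i j * g i ⟨k, j⟩ = 2 * ∑ j, (H i j : 𝕜) * g i ⟨k, j⟩ := by
      simp only [R, add_mul, Finset.sum_add_distrib]
      rw [hg i k i]
      simp; ring
    have a2 : ‖∑ j, (H i j : 𝕜) * g i ⟨k, j⟩‖ ≤ ‖g i‖ := by
      refine (norm_sum_le _ _).trans (le_trans (le_of_eq ?_) (block_le 𝕜 (g i) k))
      refine Finset.sum_congr rfl fun j _ => ?_
      have : ‖(H i j : 𝕜)‖ = ((|H i j| : ℤ) : ℝ) := by
        rw [← RCLike.ofReal_intCast, RCLike.norm_ofReal, Int.cast_abs]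
      rw [norm_mul, this, H_abs]; simp
    rw [a1, norm_mul]
    simp only [RCLike.norm_ofNat]
    linarith [gn i]
  have t1 : ‖∑ j : V k, (R 𝕜 j j - ∑ i, R 𝕜 i j * g i ⟨k, j⟩)‖ ≤ N * ((1 + 2 ^ k) / 2) := by
    refine (norm_sum_le _ _).trans ?_
    refine (Finset.sum_le_card_nsmul _ _ _ fun j _ => wn j).trans ?_
    simp [hN]
  have t2 : ‖∑ i : V k, ∑ j, R 𝕜 i j * g i ⟨k, j⟩‖ ≤ N * (4 * C) := by
    refine (norm_sum_le _ _).trans ?_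
    refine (Finset.sum_le_card_nsmul _ _ _ fun j _ => sn j).trans ?_
    simp [hN]
  have t3 : ∑ j : V k, (R 𝕜 j j - ∑ i, R 𝕜 i j * g i ⟨k, j⟩)
      + ∑ i : V k, ∑ j, R 𝕜 i j * g i ⟨k, j⟩ = ((N * (1 + 2 ^ k) : ℝ) : 𝕜) := by
    rw [Finset.sum_sub_distrib, Finset.sum_comm (f := fun j i => R 𝕜 i j * g i ⟨k, j⟩)]
    simp [R, H_diag, hN, map_ofNat, mul_add]
  have t4 := norm_add_le (∑ j : V k, (R 𝕜 j j - ∑ i, R 𝕜 i j * g i ⟨k, j⟩))
    (∑ i : V k, ∑ j, R 𝕜 i j * g i ⟨k, j⟩)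
  rw [t3, RCLike.norm_ofReal, abs_of_pos (by positivity)] at t4
  nlinarith

end Pool.Agent.Results.MP_771c73_an.Counter
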